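import Mathlib

/-! The algebraic lemma (ALG) of `Pool/Agent/Helper1/Stab/PR.lean`.

Construction by induction on `n`: write `T j (i, μ) = {i - j} ∪ μ` (zero if `i < j`). If `w` works for `L`
then `∑ w(i,μ) ∑_{k ≤ i} (i - k, {m + k} ∪ μ) - ∑_{r > n} (m + r, T r w)` works for `{m} ∪ L`. -/

open Finset

noncomputable section

namespace Pool.Agent.Helper37.Stab

/-- The map `(i, μ) ↦ {i - j} ∪ μ`. -/
def T (j : ℕ) : ((ℕ × Multiset ℕ) →₀ ℤ) →ₗ[ℤ] (Multiset ℕ →₀ ℤ) :=
  Finsupp.linearCombination ℤ fun p =>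
    if j ≤ p.1 then Finsupp.single ((p.1 - j) ::ₘ p.2) (1 : ℤ) else 0

/-- The map `μ ↦ {m} ∪ μ`. -/
def C (m : ℕ) : (Multiset ℕ →₀ ℤ) →ₗ[ℤ] (Multiset ℕ →₀ ℤ) :=
  Finsupp.linearCombination ℤ fun μ => Finsupp.single (m ::ₘ μ) (1 : ℤ)

/-- The map `μ ↦ (i, μ)`. -/
def ins (i : ℕ) : (Multiset ℕ →₀ ℤ) →ₗ[ℤ] ((ℕ × Multiset ℕ) →₀ ℤ) :=
  Finsupp.linearCombination ℤ fun μ => Finsupp.single (i, μ) (1 : ℤ)

/-- The map `(i, μ) ↦ ∑_{k ≤ i} (i - k, {m + k} ∪ μ)`. -/
def A (m : ℕ) : ((ℕ × Multiset ℕ) →₀ ℤ) →ₗ[ℤ] ((ℕ × Multiset ℕ) →₀ ℤ) :=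
  Finsupp.linearCombination ℤ fun p =>
    ∑ k ∈ range (p.1 + 1), Finsupp.single (p.1 - k, (m + k) ::ₘ p.2) (1 : ℤ)

theorem T_single (j : ℕ) (p : ℕ × Multiset ℕ) :
    T j (Finsupp.single p 1) =
      if j ≤ p.1 then Finsupp.single ((p.1 - j) ::ₘ p.2) (1 : ℤ) else 0 := by
  simp [T]

theorem C_single (m : ℕ) (μ : Multiset ℕ) :
    C m (Finsupp.single μ 1) = Finsupp.single (m ::ₘ μ) (1 : ℤ) := by
  simp [C]

theorem ins_single (m : ℕ) (μ : Multiset ℕ) :
    ins m (Finsupp.single μ 1) = Finsupp.single (m, μ) (1 : ℤ) := by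
  simp [ins]

theorem T_ins {j i : ℕ} (h : j ≤ i) (x : Multiset ℕ →₀ ℤ) : T j (ins i x) = C (i - j) x := by
  have : (T j).comp (ins i) = C (i - j) := by
    ext1 μ
    ext1
    simp [T_single, ins_single, C_single, h]
  exact LinearMap.congr_fun this x

theorem T_A (m j N : ℕ) (w : (ℕ × Multiset ℕ) →₀ ℤ) (hw : ∀ p ∈ w.support, p.1 ≤ N) :
    T j (A m w) = ∑ k ∈ range (N + 1), C (m + k) (T (j + k) w) := by
  have h1 : ∀ p : ℕ × Multiset ℕ, p.1 ≤ N → T j (A m (Finsupp.single p 1)) =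
      ∑ k ∈ range (N + 1), C (m + k) (T (j + k) (Finsupp.single p 1)) := by
    intro p hp
    have h2 : A m (Finsupp.single p 1) =
        ∑ k ∈ range (p.1 + 1), Finsupp.single (p.1 - k, (m + k) ::ₘ p.2) (1 : ℤ) := by
      simp [A]
    rw [h2, map_sum]
    have h3 : range (p.1 + 1) ⊆ range (N + 1) := range_subset_range.2 (by omega)
    refine Eq.trans (sum_congr rfl fun k hk => ?_) (sum_subset h3 fun k _ hk => ?_)
    · rw [T_single, T_single]
      have hk' : k ≤ p.1 := by simpa [Nat.lt_succ_iff] using hk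
      by_cases h4 : j + k ≤ p.1
      · rw [if_pos (show j ≤ p.1 - k by omega), if_pos h4, C_single, Multiset.cons_swap]
        congr 3
        omega
      · rw [if_neg (show ¬ j ≤ p.1 - k by omega), if_neg h4, map_zero]
    · have hk' : ¬ k ≤ p.1 := by simpa [Nat.lt_succ_iff] using hk
      rw [T_single, if_neg (by omega), map_zero]
  have h2 : w = ∑ p ∈ w.support, w p • Finsupp.single p (1 : ℤ) := by
    conv_lhs => rw [← Finsupp.sum_single w]
    unfold Finsupp.sum
    refine sum_congr rfl fun p _ => ?_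
    simp
  rw [h2]
  simp only [map_sum, map_smul]
  rw [sum_comm]
  refine sum_congr rfl fun p hp => ?_
  rw [h1 p (hw p hp), smul_sum]

theorem T_large {r N : ℕ} (h : N < r) (w : (ℕ × Multiset ℕ) →₀ ℤ)
    (hw : ∀ p ∈ w.support, p.1 ≤ N) : T r w = 0 := by
  unfold T
  rw [Finsupp.linearCombination_apply, Finsupp.sum]
  refine sum_eq_zero fun p hp => ?_
  rw [if_neg (by have := hw p hp; omega), smul_zero]

/-- The homogeneous elements. -/
def H (n s : ℕ) : Submodule ℤ ((ℕ × Multiset ℕ) →₀ ℤ) :=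
  Finsupp.supported ℤ ℤ {p | Multiset.card p.2 = n ∧ p.1 + p.2.sum = s}

theorem A_mem {n s : ℕ} (m : ℕ) {w : (ℕ × Multiset ℕ) →₀ ℤ} (hw : w ∈ H n s) :
    A m w ∈ H (n + 1) (m + s) := by
  unfold A
  rw [Finsupp.linearCombination_apply, Finsupp.sum]
  refine Submodule.sum_mem _ fun p hp => Submodule.smul_mem _ _ (Submodule.sum_mem _ fun k hk => ?_)
  have h1 : Multiset.card p.2 = n ∧ p.1 + p.2.sum = s := hw hp
  have hk' : k ≤ p.1 := by simpa [Nat.lt_succ_iff] using hk
  refine Finsupp.single_mem_supported ℤ _ ?_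
  refine ⟨by simp [h1.1], ?_⟩
  simp only [Multiset.sum_cons]
  omega

theorem ins_T_mem {n s : ℕ} (m r : ℕ) {w : (ℕ × Multiset ℕ) →₀ ℤ} (hw : w ∈ H n s) :
    ins (m + r) (T r w) ∈ H (n + 1) (m + s) := by
  unfold T
  rw [Finsupp.linearCombination_apply, Finsupp.sum, map_sum]
  refine Submodule.sum_mem _ fun p hp => ?_
  rw [map_smul]
  refine Submodule.smul_mem _ _ ?_
  have h1 : Multiset.card p.2 = n ∧ p.1 + p.2.sum = s := hw hp
  split_ifs with h
  · rw [ins_single]
    refine Finsupp.single_mem_supported ℤ _ ?_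
    refine ⟨by simp [h1.1], ?_⟩
    simp only [Multiset.sum_cons]
    omega
  · rw [map_zero]
    exact Submodule.zero_mem _

theorem alg_aux (n : ℕ) : ∀ L : Multiset ℕ, Multiset.card L = n + 1 →
    ∃ w ∈ H n L.sum, T 0 w = Finsupp.single L 1 ∧ ∀ j, 0 < j → j ≤ n → T j w = 0 := by
  induction n with
  | zero =>
    intro L hL
    obtain ⟨m, rfl⟩ := Multiset.card_eq_one.1 hL
    refine ⟨Finsupp.single (m, 0) 1, ?_, ?_, fun j h1 h2 => by omega⟩
    · exact Finsupp.single_mem_supported ℤ _ (by simp)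
    · rw [T_single]
      simp
  | succ n ih =>
    intro L' hL'
    obtain ⟨m, hm⟩ : ∃ m, m ∈ L' := Multiset.card_pos_iff_exists_mem.1 (by omega)
    obtain ⟨L, rfl⟩ := Multiset.exists_cons_of_mem hm
    have hL : Multiset.card L = n + 1 := by
      rw [Multiset.card_cons] at hL'
      omega
    obtain ⟨w, hw, h0, hj⟩ := ih L hL
    set N := L.sum with hN
    have hwN : ∀ p ∈ w.support, p.1 ≤ N := by
      intro p hp
      have h1 : Multiset.card p.2 = n ∧ p.1 + p.2.sum = N := hw hp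
      omega
    refine ⟨A m w - ∑ r ∈ Ico (n + 1) (N + 1), ins (m + r) (T r w), ?_, ?_, ?_⟩
    · rw [Multiset.sum_cons]
      exact Submodule.sub_mem _ (A_mem m hw) (Submodule.sum_mem _ fun r _ => ins_T_mem m r hw)
    · rw [map_sub, map_sum, T_A m 0 N w hwN]
      have h2 : ∀ r ∈ Ico (n + 1) (N + 1), T 0 (ins (m + r) (T r w)) = C (m + r) (T r w) :=
        fun r _ => T_ins (by omega) _
      rw [sum_congr rfl h2]
      have h3 : ∑ k ∈ range (N + 1), C (m + k) (T (0 + k) w) =
          ∑ k ∈ range (N + 1), ((if k = 0 then C m (T 0 w) else 0) +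
            if n + 1 ≤ k then C (m + k) (T k w) else 0) := by
        refine sum_congr rfl fun k _ => ?_
        rw [zero_add]
        by_cases e0 : k = 0
        · subst e0
          simp
        · by_cases e1 : n + 1 ≤ k
          · rw [if_neg e0, if_pos e1, zero_add]
          · rw [if_neg e0, if_neg e1, hj k (by omega) (by omega), map_zero, add_zero]
      rw [h3, sum_add_distrib, ← sum_filter (fun k => n + 1 ≤ k)]
      have h4 : filter (fun k => n + 1 ≤ k) (range (N + 1)) = Ico (n + 1) (N + 1) := by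
        ext k
        simp only [mem_filter, mem_range, mem_Ico]
        omega
      rw [h4, add_sub_cancel_right, sum_ite_eq', if_pos (by simp), h0, C_single]
    · intro j hj0 hjn
      rw [map_sub, map_sum, T_A m j N w hwN]
      have h2 : ∀ r ∈ Ico (n + 1) (N + 1), T j (ins (m + r) (T r w)) =
          C (m + r - j) (T r w) := by
        intro r hr
        rw [mem_Ico] at hr
        exact T_ins (by omega) _
      rw [sum_congr rfl h2, sub_eq_zero]
      have h3 : ∑ k ∈ range (N + 1), C (m + k) (T (j + k) w) =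
          ∑ r ∈ Ico j (j + (N + 1)), C (m + r - j) (T r w) := by
        rw [sum_Ico_eq_sum_range]
        have e : j + (N + 1) - j = N + 1 := by omega
        rw [e]
        refine sum_congr rfl fun k _ => ?_
        congr 2
        omega
      rw [h3]
      symm
      refine sum_subset ?_ fun r hr hr' => ?_
      · intro r hr
        rw [mem_Ico] at hr ⊢
        omega
      · rw [mem_Ico] at hr hr'
        by_cases e1 : r ≤ n
        · rw [hj r (by omega) e1, map_zero]
        · rw [T_large (N := N) (by omega) w hwN, map_zero]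

open Classical in
/-- (ALG) For a multiset `L` of `n + 1` natural numbers there is an integral combination `w` of pairs
`(i, μ)`, `μ` a multiset of `n` numbers, of the same degree, such that `∑ w(i,μ) {i - j} ∪ μ` is `L`
for `j = 0` and `0` for `0 < j ≤ n` (terms with `i < j` are omitted). -/
theorem alg (n : ℕ) (L : Multiset ℕ) (hL : Multiset.card L = n + 1) :
    ∃ w : (ℕ × Multiset ℕ) →₀ ℤ,
      (∀ p ∈ w.support, Multiset.card p.2 = n ∧ p.1 + p.2.sum = L.sum) ∧
      ∀ j ≤ n, (w.sum fun p c => if j ≤ p.1 then Finsupp.single ((p.1 - j) ::ₘ p.2) c else 0) =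
        if j = 0 then Finsupp.single L 1 else 0 := by
  obtain ⟨w, hw, h0, hj⟩ := alg_aux n L hL
  have key : ∀ j, (w.sum fun p c => if j ≤ p.1 then Finsupp.single ((p.1 - j) ::ₘ p.2) c else 0) =
      T j w := by
    intro j
    unfold T
    rw [Finsupp.linearCombination_apply]
    refine Finsupp.sum_congr fun p _ => ?_
    split_ifs
    · simp
    · simp
  refine ⟨w, fun p hp => hw hp, fun j hjn => ?_⟩
  rw [key]
  split_ifs with h
  · rw [h, h0]
  · exact hj j (by omega) hjn

end Pool.Agent.Helper37.Stab
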