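import Pool.Agent.Helper1.Stab.Proj

/-! The product on `R(K, pt)`: commutativity, associativity, unit, naturality. -/

open Topology Filter Set

noncomputable section

namespace Pool.Agent.Helper37.Stab

open Pool.Agent.Helper1.Stab

/-- `pt × Z = Z` -/
def lun (Z : LC) : LC.point.prod Z ≃ₜ Z := Homeomorph.punitProd Z

/-- the diagonal -/
def dg (K : LC) : PMap K (K.prod K).plus := graph (X := K) (L := K) (fun k => k) continuous_id

variable (R : Biv)

/-- the product of classes -/
def mulB {K : LC} (x y : R.Hom K LC.point) : R.Hom K LC.point :=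
  R.comp (R.J (dg K))
    (R.comp (R.comp (R.tens x K) (R.ltens LC.point y)) (R.J (PMap.ofHomeo (lun LC.point))))

/-- multiplication with `x` as an endomorphism of `K` -/
def act {K : LC} (x : R.Hom K LC.point) : R.Hom K K :=
  R.comp (R.J (dg K)) (R.comp (R.tens x K) (R.J (PMap.ofHomeo (lun K))))

theorem lun_nat {K L : LC} (y : R.Hom K L) :
    R.comp (R.ltens LC.point y) (R.J (PMap.ofHomeo (lun L))) =
      R.comp (R.J (PMap.ofHomeo (lun K))) y := by
  have h1 : R.comp (R.J (PMap.ofHomeo (LC.swap L LC.point))) (R.J (PMap.ofHomeo (lun L))) =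
      R.J (PMap.ofHomeo (Homeomorph.prodPUnit L : L.prod LC.point ≃ₜ L)) := by
    rw [← R.J_comp]
    congr 1
  have h2 : R.comp (R.J (PMap.ofHomeo (LC.swap LC.point K)))
      (R.J (PMap.ofHomeo (Homeomorph.prodPUnit K : K.prod LC.point ≃ₜ K))) =
      R.J (PMap.ofHomeo (lun K)) := by
    rw [← R.J_comp]
    congr 1
  unfold BivData.ltens
  rw [R.assoc, R.assoc, h1, R.tens_point, ← R.assoc, h2]

theorem mulB_eq {K : LC} (x y : R.Hom K LC.point) : mulB R x y = R.comp (act R x) y := by
  unfold mulB act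
  rw [R.assoc (R.tens x K), lun_nat, R.assoc, R.assoc]

theorem mulB_comm {K : LC} (x y : R.Hom K LC.point) : mulB R x y = mulB R y x := by
  have h1 : R.comp (R.J (dg K)) (R.J (PMap.ofHomeo (LC.swap K K))) = R.J (dg K) := by
    rw [← R.J_comp]
    congr 1
  have h2 : R.comp (R.J (PMap.ofHomeo (LC.swap LC.point LC.point)))
      (R.J (PMap.ofHomeo (lun LC.point))) = R.J (PMap.ofHomeo (lun LC.point)) := by
    rw [← R.J_comp]
    congr 1
  have h3 : R.comp (R.J (PMap.ofHomeo (LC.swap LC.point LC.point)))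
      (R.J (PMap.ofHomeo (LC.swap LC.point LC.point))) = R.J (PMap.id _) := by
    rw [← R.J_comp]
    congr 1
  have h4 : R.comp (R.J (PMap.ofHomeo (LC.swap LC.point K))) (R.tens x LC.point) =
      R.comp (R.ltens LC.point x) (R.J (PMap.ofHomeo (LC.swap LC.point LC.point))) := by
    unfold BivData.ltens
    rw [R.assoc, R.assoc, h3, R.comp_id]
  unfold mulB
  rw [R.exch x y]
  conv_lhs => rw [show R.ltens K y = R.comp (R.J (PMap.ofHomeo (LC.swap K K)))
    (R.comp (R.tens y K) (R.J (PMap.ofHomeo (LC.swap LC.point K)))) from rfl]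
  rw [R.assoc (R.J (PMap.ofHomeo (LC.swap K K))), R.assoc (R.tens y K), h4,
    R.assoc (R.J (PMap.ofHomeo (LC.swap K K))), ← R.assoc (R.J (dg K)), h1,
    ← R.assoc (R.tens y K), R.assoc (R.comp (R.tens y K) (R.ltens LC.point x)), h2]

theorem act_dg {K : LC} (x : R.Hom K LC.point) :
    R.comp (R.J (dg K)) (R.tens (act R x) K) = R.comp (act R x) (R.J (dg K)) := by
  have h1 : R.tens (R.J (PMap.ofHomeo (lun K))) K =
      R.comp (R.J (PMap.ofHomeo (Homeomorph.prodAssoc LC.point K K :
        (LC.point.prod K).prod K ≃ₜ LC.point.prod (K.prod K))))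
        (R.J (PMap.ofHomeo (lun (K.prod K)))) := by
    rw [R.tens_J, ← R.J_comp]
    congr 1
  have h2 : R.comp (R.J (dg K)) (R.comp (R.tens (R.J (dg K)) K)
      (R.J (PMap.ofHomeo (Homeomorph.prodAssoc K K K :
        (K.prod K).prod K ≃ₜ K.prod (K.prod K))))) =
      R.comp (R.J (dg K)) (R.ltens K (R.J (dg K))) := by
    rw [Orient.pj_ltens_J, R.tens_J, ← R.J_comp, ← R.J_comp, ← R.J_comp]
    congr 1
  unfold act
  rw [R.tens_comp, R.tens_comp, h1]
  rw [← R.assoc (R.tens (R.tens x K) K), R.tens_tens, ← R.assoc (R.tens (R.J (dg K)) K),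
    ← R.assoc (R.tens (R.J (dg K)) K), ← R.assoc (R.J (dg K)), ← R.assoc (R.J (dg K)), h2,
    R.assoc (R.J (dg K)), ← R.exch x (R.J (dg K)), R.assoc, R.assoc, lun_nat,
    R.assoc (R.J (dg K)), R.assoc (R.tens x K)]

theorem act_mul {K : LC} (x y : R.Hom K LC.point) :
    act R (mulB R x y) = R.comp (act R x) (act R y) := by
  rw [mulB_eq]
  conv_lhs => unfold act
  change R.comp (R.J (dg K)) (R.comp (R.tens (R.comp (act R x) y) K) _) = _
  rw [R.tens_comp, R.assoc (R.tens (act R x) K), ← R.assoc (R.J (dg K)), act_dg, R.assoc]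
  rfl

theorem mulB_assoc {K : LC} (x y z : R.Hom K LC.point) :
    mulB R (mulB R x y) z = mulB R x (mulB R y z) := by
  rw [mulB_eq R (mulB R x y) z, act_mul, mulB_eq R x (mulB R y z), mulB_eq R y z, R.assoc]

theorem mulB_one {K : LC} [CompactSpace K] (x : R.Hom K LC.point) :
    mulB R x (R.J (PMap.toPoint K)) = x := by
  rw [mulB_comm, mulB_eq]
  have h1 : act R (R.J (PMap.toPoint K)) = R.J (PMap.id K) := by
    unfold act
    rw [R.tens_J, ← R.J_comp, ← R.J_comp]
    congr 1
  rw [h1, R.id_comp]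

theorem mulB_add {K : LC} (x y z : R.Hom K LC.point) :
    mulB R x (y + z) = mulB R x y + mulB R x z := by
  rw [mulB_eq, mulB_eq, mulB_eq, R.comp_add]

theorem act_pre {K L : LC} (f : PMap K L.plus) (x : R.Hom L LC.point) :
    R.comp (act R (R.comp (R.J f) x)) (R.J f) = R.comp (R.J f) (act R x) := by
  have h1 : R.comp (R.J (dg K)) (R.comp (R.tens (R.J f) K) (R.ltens L (R.J f))) =
      R.comp (R.J f) (R.J (dg L)) := by
    rw [Orient.pj_ltens_J, R.tens_J, ← R.J_comp, ← R.J_comp, ← R.J_comp]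
    congr 1
    ext k
    change (PMap.ltens L f).plus (smashPt L K (f k, (k : OnePoint K))) = (dg L).plus (f k)
    rcases hk : f k with _ | l
    · rfl
    · change smashPt L L (((l : L) : OnePoint L), f k) = _
      rw [hk]
      rfl
  unfold act
  rw [R.tens_comp, R.assoc, R.assoc, R.assoc, ← lun_nat, ← R.assoc (R.tens x K),
    R.exch x (R.J f), R.assoc (R.ltens L (R.J f)), ← R.assoc (R.tens (R.J f) K),
    ← R.assoc (R.J (dg K)), h1, R.assoc]

theorem mulB_pre {K L : LC} (f : PMap K L.plus) (x y : R.Hom L LC.point) :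
    R.comp (R.J f) (mulB R x y) = mulB R (R.comp (R.J f) x) (R.comp (R.J f) y) := by
  rw [mulB_eq, mulB_eq, ← R.assoc (act R (R.comp (R.J f) x)), act_pre, R.assoc]

end Pool.Agent.Helper37.Stab
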